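import Pool.Agent.R313.GaussTrunc
import Pool.Agent.R313.NearTwoAll
import Pool.Agent.Results.MP_f9aece_nt.TwoSidedNearTwo

set_option autoImplicit false

/-!
# MP_f9aece_nt: how the moments of order `β → 2` are distributed over the values of zeta, unconditionally

Let `β(T) → 2` and `y` real, and put `V(T) = (log T)^(β(T)/2) exp (y √(½ log log T))`.

* For every real `x`, the part of the moment `∫_0^1 |ζ(1/2 + ix + iuT)|^β(T) du` which comes from the `u` with
  `|ζ(1/2 + ix + iuT)| ≤ V(T)` is asymptotic to `Φ(y) exp (¼ β(T)² log log T)`, where `Φ` is the distribution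
  function of the standard Gaussian law.
* The same holds for the means over arbitrary intervals `[U(T), U(T) + H(T)]` inside `[0, T]` of length
  `H(T) ≥ T / (log T)^α`, `α < 1/2`.
-/

namespace Pool.Agent.Results.MP_f9aece_nt.GaussianTruncation

open Filter MeasureTheory Topology ProbabilityTheory

/-- the distribution function of the standard Gaussian law -/
noncomputable def Phi (y : ℝ) : ℝ :=
  (Real.sqrt (2 * Real.pi))⁻¹ * ∫ v in Set.Iic y, Real.exp (-(v ^ 2 / 2))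

/-- the level `(log T)^(β/2) exp (y √(½ log log T))` -/
noncomputable def level (T β y : ℝ) : ℝ :=
  Real.log T ^ (β / 2) * Real.exp (y * Real.sqrt (1 / 2 * Real.log (Real.log T)))

theorem Phi_eq (y : ℝ) : (gaussianReal 0 1).real (Set.Iic y) = Phi y := by
  unfold Measure.real Phi
  rw [gaussianReal_apply_eq_integral 0 one_ne_zero, ENNReal.toReal_ofReal
    (setIntegral_nonneg measurableSet_Iic fun v _ => gaussianPDFReal_nonneg 0 1 v),
    ← integral_const_mul]
  refine setIntegral_congr_fun measurableSet_Iic fun v _ => ?_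
  simp only [gaussianPDFReal, NNReal.coe_one, mul_one, sub_zero]
  congr 2
  ring

theorem level_eq (T β y : ℝ) : Real.log T ^ (β / 2) *
    Real.exp (y * Real.sqrt (Real.log (Real.log T) / 2)) = level T β y := by
  unfold level
  congr 4
  ring

theorem zeta_cont : Continuous (fun t : ℝ => riemannZeta (1 / 2 + t * Complex.I)) := by
  rw [continuous_iff_continuousAt]
  intro t
  have h1 : (1 / 2 + (t:ℂ) * Complex.I) ≠ 1 := by
    intro h
    have := congrArg Complex.re h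
    simp at this
  have h2 := (differentiableAt_riemannZeta h1).continuousAt
  exact ContinuousAt.comp (f := fun t : ℝ => 1 / 2 + (t:ℂ) * Complex.I) h2
    (by fun_prop : Continuous fun t : ℝ => 1 / 2 + (t:ℂ) * Complex.I).continuousAt

theorem part1 (x y : ℝ) (β : ℝ → ℝ) (hβ : Tendsto β atTop (𝓝 2)) :
    Tendsto (fun T : ℝ =>
      (∫ u in {u : ℝ | u ∈ Set.Icc 0 1 ∧
          ‖riemannZeta (1 / 2 + Complex.I * x + Complex.I * (u * T))‖ ≤ level T (β T) y},
        ‖riemannZeta (1 / 2 + Complex.I * x + Complex.I * (u * T))‖ ^ β T) /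
          Real.exp (1 / 4 * β T ^ 2 * Real.log (Real.log T)))
      atTop (𝓝 (Phi y)) := by
  obtain ⟨Z, hZd⟩ : ∃ Z : ℝ → ℝ, ∀ t, Z t = ‖riemannZeta (1 / 2 + Complex.I * x + Complex.I * t)‖ :=
    ⟨_, fun _ => rfl⟩
  have hZ : Continuous Z := by
    have e : Z = fun t : ℝ => ‖riemannZeta (1 / 2 + ((x + t : ℝ) : ℂ) * Complex.I)‖ := by
      funext t
      rw [hZd]
      congr 2
      push_cast
      ring
    rw [e]
    exact zeta_cont.norm.comp (continuous_const.add continuous_id)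
  have hZ0 : ∀ t, 0 ≤ Z t := fun t => by rw [hZd]; exact norm_nonneg _
  have hmu : ∀ T u : ℝ, ‖riemannZeta (1 / 2 + Complex.I * x + Complex.I * (u * T))‖ = Z (u * T) := by
    intro T u
    rw [hZd]
    push_cast
    rfl
  -- change of variables
  have hcv : ∀ T : ℝ, 0 < T → ∀ g : ℝ → ℝ, ∫ u in (0 : ℝ)..1, g (u * T) = T⁻¹ * ∫ t in (0 : ℝ)..T, g t := by
    intro T hT g
    have h := intervalIntegral.integral_comp_mul_right (a := (0 : ℝ)) (b := 1) g hT.ne'
    rw [h, zero_mul, one_mul, smul_eq_mul]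
  have hM : ∀ b : ℝ → ℝ, Tendsto b atTop (𝓝 2) →
      Tendsto (fun T : ℝ => (∫ t in (0 : ℝ)..(0 + T), Z t ^ b T) /
        (T * Real.exp (b T ^ 2 / 4 * Real.log (Real.log T)))) atTop (𝓝 1) := by
    intro b hb
    rw [Metric.tendsto_atTop']
    intro ε hε
    obtain ⟨δ, hδ, h⟩ := Pool.Agent.Results.MP_f9aece_nt.TwoSidedNearTwo.result (ε / 2) (by positivity)
    have h1 : ∀ᶠ T : ℝ in atTop, |b T - 2| ≤ δ := by
      have := hb.eventually (Metric.ball_mem_nhds 2 hδ)
      filter_upwards [this] with T hT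
      rw [Real.dist_eq] at hT
      exact hT.le
    obtain ⟨N, hN⟩ := eventually_atTop.1 ((h x).and (h1.and (eventually_gt_atTop 0)))
    refine ⟨N, fun T hT => ?_⟩
    obtain ⟨h2, h3, h4⟩ := hN T hT.le
    have h5 := h2 (b T) h3
    rw [Real.dist_eq]
    refine lt_of_le_of_lt ?_ (by linarith : ε / 2 < ε)
    refine le_trans (le_of_eq ?_) h5
    have e1 : ∫ u in (0 : ℝ)..1, ‖riemannZeta (1 / 2 + x * Complex.I + (u * T) * Complex.I)‖ ^ b T =
        T⁻¹ * ∫ t in (0 : ℝ)..T, Z t ^ b T := by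
      rw [← hcv T h4 (fun t => Z t ^ b T)]
      refine intervalIntegral.integral_congr fun u _ => ?_
      show _ = Z (u * T) ^ b T
      rw [hZd]
      congr 3
      push_cast
      ring
    rw [e1, zero_add]
    congr 2
    rw [div_mul_eq_div_div]
    congr 1
    rw [div_eq_inv_mul]
  have hmain := Pool.Agent.R313.gauss_trunc Z hZ hZ0 (fun _ => 0) (fun T => T)
    (eventually_gt_atTop 0) hM β hβ y
  rw [Phi_eq] at hmain
  refine hmain.congr' ?_
  filter_upwards [eventually_gt_atTop 0] with T hT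
  rw [level_eq]
  set V := level T (β T) y with hV
  have m1 : MeasurableSet {t : ℝ | Z t ≤ V} := hZ.measurable measurableSet_Iic
  have m2 : MeasurableSet {u : ℝ | Z (u * T) ≤ V} :=
    (hZ.comp (continuous_id.mul continuous_const)).measurable measurableSet_Iic
  have a1 : ∫ t in {t : ℝ | t ∈ Set.Icc (0:ℝ) (0 + T) ∧ Z t ≤ V}, Z t ^ β T =
      ∫ t in (0 : ℝ)..T, {t : ℝ | Z t ≤ V}.indicator (fun t => Z t ^ β T) t := by
    have e0 : {t : ℝ | t ∈ Set.Icc (0:ℝ) (0 + T) ∧ Z t ≤ V} = Set.Icc (0:ℝ) (0 + T) ∩ {t : ℝ | Z t ≤ V} := rfl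
    rw [e0, ← setIntegral_indicator m1, integral_Icc_eq_integral_Ioc, zero_add,
      intervalIntegral.integral_of_le hT.le]
  have a2 : ∫ u in {u : ℝ | u ∈ Set.Icc 0 1 ∧
        ‖riemannZeta (1 / 2 + Complex.I * x + Complex.I * (u * T))‖ ≤ V},
        ‖riemannZeta (1 / 2 + Complex.I * x + Complex.I * (u * T))‖ ^ β T =
      ∫ u in (0 : ℝ)..1, {t : ℝ | Z t ≤ V}.indicator (fun t => Z t ^ β T) (u * T) := by
    have e1 : {u : ℝ | u ∈ Set.Icc 0 1 ∧
        ‖riemannZeta (1 / 2 + Complex.I * x + Complex.I * (u * T))‖ ≤ V} =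
        Set.Icc 0 1 ∩ {u : ℝ | Z (u * T) ≤ V} := by
      ext u
      simp only [Set.mem_ofPred_eq, Set.mem_inter_iff, hmu]
    rw [e1, ← setIntegral_indicator m2, integral_Icc_eq_integral_Ioc,
      intervalIntegral.integral_of_le zero_le_one]
    refine setIntegral_congr_fun measurableSet_Ioc fun u _ => ?_
    show {u : ℝ | Z (u * T) ≤ V}.indicator
      (fun u : ℝ => ‖riemannZeta (1 / 2 + Complex.I * x + Complex.I * (u * T))‖ ^ β T) u =
      {t : ℝ | Z t ≤ V}.indicator (fun t => Z t ^ β T) (u * T)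
    by_cases hu : Z (u * T) ≤ V
    · rw [Set.indicator_of_mem (show u ∈ {u : ℝ | Z (u * T) ≤ V} from hu),
        Set.indicator_of_mem (show u * T ∈ {t : ℝ | Z t ≤ V} from hu), hmu]
    · rw [Set.indicator_of_notMem (show u ∉ {u : ℝ | Z (u * T) ≤ V} from hu),
        Set.indicator_of_notMem (show u * T ∉ {t : ℝ | Z t ≤ V} from hu)]
  rw [a2, hcv T hT (fun t => {t : ℝ | Z t ≤ V}.indicator (fun t => Z t ^ β T) t), ← a1]
  have e5 : 1 / 4 * β T ^ 2 * Real.log (Real.log T) = β T ^ 2 / 4 * Real.log (Real.log T) := by ring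
  rw [e5, div_mul_eq_div_div]
  congr 1
  rw [div_eq_inv_mul]

theorem part2 (α y : ℝ) (h0 : 0 ≤ α) (h1 : α < 1 / 2) (U H : ℝ → ℝ)
    (hUH : ∀ᶠ T : ℝ in atTop, 0 ≤ U T ∧ U T + H T ≤ T ∧ T / Real.log T ^ α ≤ H T)
    (β : ℝ → ℝ) (hβ : Tendsto β atTop (𝓝 2)) :
    Tendsto (fun T : ℝ =>
      (1 / H T * ∫ t in {t : ℝ | t ∈ Set.Icc (U T) (U T + H T) ∧
          ‖riemannZeta (1 / 2 + Complex.I * t)‖ ≤ level T (β T) y},
        ‖riemannZeta (1 / 2 + Complex.I * t)‖ ^ β T) / Real.exp (1 / 4 * β T ^ 2 * Real.log (Real.log T)))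
      atTop (𝓝 (Phi y)) := by
  obtain ⟨Z, hZd⟩ : ∃ Z : ℝ → ℝ, ∀ t, Z t = ‖riemannZeta (1 / 2 + Complex.I * t)‖ :=
    ⟨_, fun _ => rfl⟩
  have hZe : ∀ t, Z t = ‖riemannZeta (1 / 2 + t * Complex.I)‖ := by
    intro t; rw [hZd, mul_comm]
  have hZ : Continuous Z := by
    have e : Z = fun t : ℝ => ‖riemannZeta (1 / 2 + t * Complex.I)‖ := funext hZe
    rw [e]
    exact zeta_cont.norm
  have hZ0 : ∀ t, 0 ≤ Z t := fun t => by rw [hZd]; exact norm_nonneg _
  have hH : ∀ᶠ T : ℝ in atTop, 0 < H T := by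
    filter_upwards [hUH, eventually_gt_atTop 1] with T h hT
    have := Real.log_pos hT
    exact lt_of_lt_of_le (by positivity) h.2.2
  have hM : ∀ b : ℝ → ℝ, Tendsto b atTop (𝓝 2) →
      Tendsto (fun T : ℝ => (∫ t in (U T)..(U T + H T), Z t ^ b T) /
        (H T * Real.exp (b T ^ 2 / 4 * Real.log (Real.log T)))) atTop (𝓝 1) := by
    intro b hb
    rw [Metric.tendsto_atTop']
    intro ε hε
    obtain ⟨δ, hδ, -, h⟩ := Pool.Agent.R313.NT.near_two_all (show 0 < ε / 2 by positivity)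
    have h2 : ∀ᶠ T : ℝ in atTop, |b T - 2| ≤ δ := by
      have := hb.eventually (Metric.ball_mem_nhds 2 hδ)
      filter_upwards [this] with T hT
      rw [Real.dist_eq] at hT
      exact hT.le
    obtain ⟨N, hN⟩ := eventually_atTop.1 ((h α h0 h1).and (h2.and (hUH.and (hH.and
      (eventually_gt_atTop 1)))))
    refine ⟨N, fun T hT => ?_⟩
    obtain ⟨a1, a2, ⟨a3, a4, a5⟩, a6, a7⟩ := hN T hT.le
    have h5 := a1 (U T) (H T) a3 a4 a5 (b T) a2
    have hL := Real.log_pos a7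
    rw [Real.dist_eq]
    refine lt_of_le_of_lt ?_ (by linarith : ε / 2 < ε)
    have e1 : Real.exp (b T ^ 2 / 4 * Real.log (Real.log T)) = Real.log T ^ (b T ^ 2 / 4) := by
      rw [Real.rpow_def_of_pos hL, mul_comm]
    have e2 : (fun t => Z t ^ b T) = fun t => Pool.Agent.TH806.Xz t ^ b T := by
      funext t; rw [hZe]; rfl
    rw [e1, e2]
    set P := Real.log T ^ (b T ^ 2 / 4) with hP
    have hP0 : 0 < P := Real.rpow_pos_of_pos hL _
    have hHP : 0 < H T * P := by positivity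
    rw [div_sub_one hHP.ne', abs_div, abs_of_pos hHP, div_le_iff₀ hHP]
    exact h5
  have hmain := Pool.Agent.R313.gauss_trunc Z hZ hZ0 U H hH hM β hβ y
  rw [Phi_eq] at hmain
  refine hmain.congr' ?_
  filter_upwards [hH] with T hT
  rw [level_eq]
  simp only [← hZd]
  have e5 : 1 / 4 * β T ^ 2 * Real.log (Real.log T) = β T ^ 2 / 4 * Real.log (Real.log T) := by ring
  rw [e5, div_mul_eq_div_div]
  congr 1
  rw [div_eq_inv_mul, one_div]

theorem result (y : ℝ) (β : ℝ → ℝ) (hβ : Tendsto β atTop (𝓝 2)) :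
    (∀ x : ℝ, Tendsto (fun T : ℝ =>
      (∫ u in {u : ℝ | u ∈ Set.Icc 0 1 ∧
          ‖riemannZeta (1 / 2 + Complex.I * x + Complex.I * (u * T))‖ ≤ level T (β T) y},
        ‖riemannZeta (1 / 2 + Complex.I * x + Complex.I * (u * T))‖ ^ β T) /
          Real.exp (1 / 4 * β T ^ 2 * Real.log (Real.log T)))
      atTop (𝓝 (Phi y))) ∧
    ∀ α : ℝ, 0 ≤ α → α < 1 / 2 → ∀ U H : ℝ → ℝ,
      (∀ᶠ T : ℝ in atTop, 0 ≤ U T ∧ U T + H T ≤ T ∧ T / Real.log T ^ α ≤ H T) →
      Tendsto (fun T : ℝ =>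
        (1 / H T * ∫ t in {t : ℝ | t ∈ Set.Icc (U T) (U T + H T) ∧
            ‖riemannZeta (1 / 2 + Complex.I * t)‖ ≤ level T (β T) y},
          ‖riemannZeta (1 / 2 + Complex.I * t)‖ ^ β T) / Real.exp (1 / 4 * β T ^ 2 * Real.log (Real.log T)))
        atTop (𝓝 (Phi y)) :=
  ⟨fun x => part1 x y β hβ, fun α h0 h1 U H h => part2 α y h0 h1 U H h β hβ⟩

end Pool.Agent.Results.MP_f9aece_nt.GaussianTruncation
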