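import Pool.Agent.R313.NearTwoAll

set_option autoImplicit false

/-!
# MP_f9aece_nt: sharp two-sided asymptotics for all moments of order near 2 in short intervals, unconditionally

For every `ε > 0` there is `δ > 0` such that for all `0 ≤ α < 1/2`, all large `T` and every interval
`[U, U + H]` inside `[0, T]` of length `H ≥ T / (log T)^α`, simultaneously for all real `β` with `|β - 2| ≤ δ`,
the mean of `|ζ(1/2 + it)|^β` over `[U, U + H]` lies within a factor `1 ± ε` of `exp (¼ β² log log T)`.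
-/

namespace Pool.Agent.Results.MP_f9aece_nt.NearTwoIntervals

open Filter

theorem result (ε : ℝ) (hε : 0 < ε) :
    ∃ δ : ℝ, 0 < δ ∧ ∀ α : ℝ, 0 ≤ α → α < 1 / 2 → ∀ᶠ T : ℝ in atTop, ∀ U H : ℝ, 0 ≤ U → U + H ≤ T →
      T / Real.log T ^ α ≤ H → ∀ β : ℝ, |β - 2| ≤ δ →
        |(1 / H * ∫ t in U..(U + H), ‖riemannZeta (1 / 2 + t * Complex.I)‖ ^ β) /
          Real.exp (1 / 4 * β ^ 2 * Real.log (Real.log T)) - 1| ≤ ε := by
  obtain ⟨δ, h0, -, h2⟩ := Pool.Agent.R313.NT.near_two_all hε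
  refine ⟨δ, h0, fun α ha0 ha1 => ?_⟩
  filter_upwards [h2 α ha0 ha1, eventually_gt_atTop 1] with T hT hT1 U H hU hUH hH β hβ
  have hL := Real.log_pos hT1
  have hT0 : 0 < T := by linarith
  have hH0 : 0 < H := lt_of_lt_of_le (by positivity) hH
  have h5 := hT U H hU hUH hH β hβ
  have e1 : Real.exp (1 / 4 * β ^ 2 * Real.log (Real.log T)) = Real.log T ^ (β ^ 2 / 4) := by
    rw [Real.rpow_def_of_pos hL]; congr 1; ring
  change |(∫ t in U..(U + H), ‖riemannZeta (1 / 2 + t * Complex.I)‖ ^ β) - H * Real.log T ^ (β ^ 2 / 4)| ≤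
    ε * (H * Real.log T ^ (β ^ 2 / 4)) at h5
  rw [e1]
  set P := Real.log T ^ (β ^ 2 / 4) with hP
  have hP0 : 0 < P := Real.rpow_pos_of_pos hL _
  set I := ∫ t in U..(U + H), ‖riemannZeta (1 / 2 + t * Complex.I)‖ ^ β
  have e3 : 1 / H * I / P - 1 = (I - H * P) / (H * P) := by field_simp
  have hHP : 0 < H * P := by positivity
  rw [e3, abs_div, abs_of_pos hHP, div_le_iff₀ hHP]
  exact h5

end Pool.Agent.Results.MP_f9aece_nt.NearTwoIntervals
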