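import Pool.Agent.R313.TW.B

set_option autoImplicit false

/-!
# MP_f9aece_nt: Selberg's limit law under the moment measures of order at most four, near the critical line

Let `δ(T) → 0`, `δ(T) log T → ∞`, `ℓ = log (1 / (2δ))`, `0 < β ≤ 4`, and let `h, k` be coprime positive integers. For
every continuous `F : ℝ → ℝ` which is bounded or, if `β < 4`, satisfies `|F(x)| ≤ A exp (A |x|)` for some `A`,

`(2δ)^(β²/4) (1/T) ∫_0^T |ζ(1/2 + δ + it)|^β F((log |ζ(1/2 + δ + it)| - (β/2) ℓ) / √(ℓ/2)) (k/h)^(it) dt`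

converges to `a(β/2) c(β/2, h, k)` times the integral of `F` against the standard normal law. Here `a` is the arithmetic
factor of the moment conjecture, and the `c(β/2, h, k)` are products over the primes dividing `h k`. Thus under the
measure `|ζ(1/2 + δ + it)|^β dt` the logarithm of `|ζ|` is asymptotically normal with mean `(β/2) ℓ` and variance `ℓ/2`,
together with all moments and exponential moments if `β < 4`, and is asymptotically independent of the `p^(it)`.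
-/

open Filter Topology MeasureTheory ProbabilityTheory

namespace Pool.Agent.Results.MP_f9aece_nt.WeightedSelberg

/-- the coefficients `Γ(κ + m) / (Γ(κ) m!)` of `(1 - x)^(-κ)` -/
noncomputable def dd (κ : ℝ) (m : ℕ) : ℝ := Real.Gamma (κ + m) / (Real.Gamma κ * (m.factorial : ℝ))

/-- the arithmetic factor of the moment conjecture for `|ζ|^(2κ)` -/
noncomputable def ak (κ : ℝ) : ℝ :=
  ∏' p : Nat.Primes, ((1 - 1 / (p : ℝ)) ^ (κ ^ 2) * ∑' m : ℕ, dd κ m ^ 2 / (p : ℝ) ^ m)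

/-- the coefficient `c(κ, h, k)`: the product over the primes `p` dividing `h k`, with `c` the exponent of `p` in `h k`,
of `(∑_i d(i) d(i + c) p^(-i-c/2)) / ∑_i d(i)² p^(-i)` -/
noncomputable def coef (κ : ℝ) (h k : ℕ) : ℝ :=
  ∏ p ∈ (h * k).primeFactors, Real.sqrt p ^ ((h * k).factorization p) *
    (∑' i : ℕ, dd κ i * dd κ (i + (h * k).factorization p) * (1 / (p : ℝ)) ^ (i + (h * k).factorization p)) /
      ∑' i : ℕ, dd κ i ^ 2 * (1 / (p : ℝ)) ^ i

theorem result (δ : ℝ → ℝ) (hδ : Tendsto δ atTop (𝓝 0)) (hδL : Tendsto (fun T : ℝ => δ T * Real.log T) atTop atTop)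
    (β : ℝ) (hβ : 0 < β) (hβ4 : β ≤ 4) (h k : ℕ) (hh : 0 < h) (hk : 0 < k) (hc : h.Coprime k)
    (F : ℝ → ℝ) (hF : Continuous F)
    (hFA : (∃ A : ℝ, ∀ x, |F x| ≤ A) ∨ (β < 4 ∧ ∃ A : ℝ, ∀ x, |F x| ≤ A * Real.exp (A * |x|))) :
    0 < ak (β / 2) ∧
    Tendsto (fun T : ℝ => (((2 * δ T) ^ (β ^ 2 / 4) * (1 / T) : ℝ) : ℂ) * ∫ t in (0:ℝ)..T,
      ((‖riemannZeta (1 / 2 + δ T + Complex.I * (t : ℂ))‖ ^ β *
        F ((Real.log ‖riemannZeta (1 / 2 + δ T + Complex.I * (t : ℂ))‖ - β / 2 * Real.log (1 / (2 * δ T))) /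
          Real.sqrt (Real.log (1 / (2 * δ T)) / 2)) : ℝ) : ℂ) *
        Complex.exp (Complex.I * (t : ℂ) * ((Real.log k - Real.log h : ℝ) : ℂ))) atTop
      (𝓝 ((ak (β / 2) * coef (β / 2) h k * ∫ x, F x ∂(gaussianReal 0 1) : ℝ) : ℂ)) := by
  have e1 : ∀ k : ℝ, 0 < k → ∀ m : ℕ, dd k m = Pool.Agent.H306R2.lc k m := by
    intro k hk m
    unfold dd
    have hG : Real.Gamma k ≠ 0 := (Real.Gamma_pos_of_pos hk).ne'
    induction m with
    | zero =>
      unfold Pool.Agent.H306R2.lc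
      simp [hG]
    | succ m ih =>
      have h1 : Pool.Agent.H306R2.lc k (m + 1) = Pool.Agent.H306R2.lc k m * ((k + m) / ((m : ℝ) + 1)) := by
        unfold Pool.Agent.H306R2.lc
        rw [Finset.prod_range_succ]
      have hkm : k + (m : ℝ) ≠ 0 := by positivity
      have h2 : Real.Gamma (k + ((m + 1 : ℕ) : ℝ)) = (k + m) * Real.Gamma (k + m) := by
        rw [← Real.Gamma_add_one hkm]
        congr 1
        push_cast
        ring
      have hf : (m.factorial : ℝ) ≠ 0 := by positivity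
      rw [h1, ← ih, h2, Nat.factorial_succ]
      push_cast
      field_simp
  have e3 : ∀ k : ℝ, 0 < k → ak k = Pool.Agent.H306R2.aF k := by
    intro k hk
    unfold ak Pool.Agent.H306R2.aF
    refine tprod_congr fun p => ?_
    simp_rw [e1 k hk, one_div, inv_pow, div_eq_mul_inv]
  have hβ2 : 0 < β / 2 := by positivity
  have e4 : coef (β / 2) h k = Pool.Agent.Y753.NL.Nu (β / 2) h k := by
    unfold coef Pool.Agent.Y753.NL.Nu Pool.Agent.Y753.NL.nu
    simp_rw [e1 _ hβ2]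
  have e5 : ∀ T t : ℝ, Pool.Agent.W184.zn (1 / 2 + δ T) t = ‖riemannZeta (1 / 2 + δ T + Complex.I * (t : ℂ))‖ := by
    intro T t
    unfold Pool.Agent.W184.zn
    congr 2
    push_cast
    ring
  have e6 : ∀ T : ℝ, (2 * δ T) ^ ((β / 2) ^ 2) = (2 * δ T) ^ (β ^ 2 / 4) := fun T => by congr 1; ring
  have e7 : ∀ t : ℝ, Pool.Agent.Y753.NL.tw h k t = Complex.exp (Complex.I * (t : ℂ) * ((Real.log k - Real.log h : ℝ) : ℂ)) := by
    intro t
    unfold Pool.Agent.Y753.NL.tw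
    congr 1
    ring
  have e8 : 2 * (β / 2) = β := by ring
  rw [e3 _ hβ2, e4]
  refine ⟨Pool.Agent.H306R2.aF_pos hβ2, ?_⟩
  have main : Tendsto (fun T : ℝ => (((2 * δ T) ^ ((β / 2) ^ 2) / T : ℝ) : ℂ) * ∫ t in Set.Icc 0 T,
      ((Pool.Agent.W184.zn (1 / 2 + δ T) t ^ (2 * (β / 2)) * F (Pool.Agent.R313.TW.XX (β / 2) (δ T) t) : ℝ) : ℂ) *
        Pool.Agent.Y753.NL.tw h k t) atTop
      (𝓝 (((Pool.Agent.H306R2.aF (β / 2) * Pool.Agent.Y753.NL.Nu (β / 2) h k : ℝ) : ℂ) *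
        ((∫ x, F x ∂(gaussianReal 0 1) : ℝ) : ℂ))) := by
    rcases hβ4.lt_or_eq with hlt | heq
    · obtain ⟨A, hA⟩ : ∃ A : ℝ, ∀ x, |F x| ≤ A * Real.exp (A * |x|) := by
        rcases hFA with ⟨A, hA⟩ | ⟨-, hA⟩
        · have hA0 : 0 ≤ A := (abs_nonneg _).trans (hA 0)
          refine ⟨A, fun x => (hA x).trans ?_⟩
          exact le_mul_of_one_le_right hA0 (Real.one_le_exp (by positivity))
        · exact hA
      exact Pool.Agent.R313.TW.full_grow hδ hδL hβ2 (by linarith) hh.ne' hk.ne' hc hF hA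
    · obtain ⟨A, hA⟩ : ∃ A : ℝ, ∀ x, |F x| ≤ A := by
        rcases hFA with hA | ⟨h1, -⟩
        · exact hA
        · exact absurd heq h1.ne
      have h1 := Pool.Agent.R313.TW.full_four hδ hδL hh.ne' hk.ne' hc
        (BoundedContinuousFunction.ofNormedAddCommGroup F hF A (fun x => by rw [Real.norm_eq_abs]; exact hA x))
      have e9 : β / 2 = 2 := by linarith
      rw [e9]
      exact h1
  have e10 : ((Pool.Agent.H306R2.aF (β / 2) * Pool.Agent.Y753.NL.Nu (β / 2) h k : ℝ) : ℂ) *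
        ((∫ x, F x ∂(gaussianReal 0 1) : ℝ) : ℂ) =
      ((Pool.Agent.H306R2.aF (β / 2) * Pool.Agent.Y753.NL.Nu (β / 2) h k * ∫ x, F x ∂(gaussianReal 0 1) : ℝ) : ℂ) := by
    push_cast; ring
  rw [e10] at main
  refine main.congr' ?_
  filter_upwards [eventually_gt_atTop 0] with T hT
  rw [e6, intervalIntegral.integral_of_le hT.le, ← integral_Icc_eq_integral_Ioc, e8, ← one_div_mul_eq_div, mul_comm (1 / T)]
  simp_rw [e7]
  congr 1
  refine integral_congr_ae (Eventually.of_forall fun t => ?_)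
  simp only
  unfold Pool.Agent.R313.TW.XX Pool.Agent.Y753.NL.ell Pool.Agent.Y753.NL.sg Pool.Agent.Y753.NL.ell
  rw [e5]

end Pool.Agent.Results.MP_f9aece_nt.WeightedSelberg
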